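import Pool.Agent.helper82.SC.SpecB

namespace Pool.Agent.helper82.SC

theorem SQT_top_pos (n : ℕ) (hn : 1 ≤ n) : 1 ≤ top n := by
  rw [top_spec]
  nlinarith

theorem SQT_S (i j : ℤ) :
    S ((i, j), true) 0 = (i + 1, j + 1) ∧ S ((i, j), true) 1 = (i, j + 1) ∧ S ((i, j), true) 2 = (i + 1, j) ∧
    S ((i, j), false) 0 = (i, j) ∧ S ((i, j), false) 1 = (i + 1, j) ∧ S ((i, j), false) 2 = (i, j + 1) := by
  simp [S]

theorem SQT : SQT_stmt := by
  intro n hn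
  have hT1 := SQT_top_pos n hn
  have hT2 := top_le n
  have e0 : (0 : Fin 3) + 2 = 2 := rfl
  have e1 : (1 : Fin 3) + 2 = 0 := rfl
  have e2 : (2 : Fin 3) + 2 = 1 := rfl
  have e3 : (0 : Fin 3) + 1 = 1 := rfl
  have e4 : (1 : Fin 3) + 1 = 2 := rfl
  have e5 : (2 : Fin 3) + 1 = 0 := rfl
  refine ⟨?_, ?_, ?_⟩
  · intro m
    fin_cases m
    · have ha : asq n 0 = (((-((top n : ℤ) / 2) - 1, (top n : ℤ)), false), 2) := by simp [asq]
      simp only [Fin.zero_eta]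
      rw [ha]
      simp only [e2, e5, e3, e0]
      obtain ⟨-, -, -, h0, h1, h2⟩ := SQT_S (-((top n : ℤ) / 2) - 1) (top n : ℤ)
      rw [h0, h1, h2]
      refine ⟨?_, ?_, ?_, ?_, ?_⟩
      · rw [mem_Usq]; dsimp only; omega
      · rw [mem_Usq]; dsimp only; omega
      · rw [mem_Usq]; dsimp only; omega
      · unfold secsq; dsimp only
        rw [if_neg (by omega), if_pos (by omega)]
      · unfold secsq; dsimp only
        rw [if_neg (by omega), if_neg (by omega), if_pos (by omega)]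
    · have ha : asq n 1 = (((-1, -1), true), 1) := by simp [asq]
      simp only [Fin.mk_one]
      rw [ha]
      simp only [e1, e4]
      obtain ⟨h0, h1, h2, -, -, -⟩ := SQT_S (-1) (-1)
      rw [h0, h1, h2]
      refine ⟨?_, ?_, ?_, ?_, ?_⟩
      · rw [mem_Usq]; dsimp only; omega
      · rw [mem_Usq]; dsimp only; omega
      · rw [mem_Usq]; dsimp only; omega
      · unfold secsq; dsimp only
        rw [if_neg (by omega), if_neg (by omega), if_pos (by omega)]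
      · unfold secsq; dsimp only
        rw [if_pos (by omega)]
    · have ha : asq n 2 = ((((2 * (n : ℤ) - top n) / 2, (top n : ℤ)), false), 1) := by simp [asq]
      simp only [Fin.reduceFinMk]
      rw [ha]
      simp only [e1, e4, e2, e5]
      obtain ⟨-, -, -, h0, h1, h2⟩ := SQT_S ((2 * (n : ℤ) - top n) / 2) (top n : ℤ)
      rw [h0, h1, h2]
      refine ⟨?_, ?_, ?_, ?_, ?_⟩
      · rw [mem_Usq]; dsimp only; omega
      · rw [mem_Usq]; dsimp only; omega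
      · rw [mem_Usq]; dsimp only; omega
      · unfold secsq; dsimp only
        rw [if_neg (by omega), if_neg (by omega), if_neg (by omega)]
      · unfold secsq; dsimp only
        rw [if_neg (by omega), if_pos (by omega)]
  · rintro ⟨⟨i, j⟩, b⟩ d h1 h2 h3 h4
    obtain ⟨t0, t1, t2, f0, f1, f2⟩ := SQT_S i j
    have key : ∀ u v w : V, w ∈ Usq n → u ∉ Usq n → v ∉ Usq n → secsq n u ≠ secsq n v →
        (0 ≤ w.2 ∧ w.2 ≤ top n ∧ 0 ≤ 2 * w.1 + w.2 ∧ 2 * w.1 + w.2 ≤ 2 * n) ∧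
        ¬ (0 ≤ u.2 ∧ u.2 ≤ top n ∧ 0 ≤ 2 * u.1 + u.2 ∧ 2 * u.1 + u.2 ≤ 2 * n) ∧
        ¬ (0 ≤ v.2 ∧ v.2 ≤ top n ∧ 0 ≤ 2 * v.1 + v.2 ∧ 2 * v.1 + v.2 ≤ 2 * n) ∧
        ¬ (u.2 < 0 ∧ v.2 < 0) ∧ ¬ (¬ u.2 < 0 ∧ (top n : ℤ) < u.2 ∧ ¬ v.2 < 0 ∧ (top n : ℤ) < v.2) ∧
        ¬ (¬ u.2 < 0 ∧ ¬ (top n : ℤ) < u.2 ∧ 2 * u.1 + u.2 < 0 ∧ ¬ v.2 < 0 ∧ ¬ (top n : ℤ) < v.2 ∧ 2 * v.1 + v.2 < 0) ∧
        ¬ (¬ u.2 < 0 ∧ ¬ (top n : ℤ) < u.2 ∧ ¬ 2 * u.1 + u.2 < 0 ∧ ¬ v.2 < 0 ∧ ¬ (top n : ℤ) < v.2 ∧ ¬ 2 * v.1 + v.2 < 0) ∧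
        ¬ (u.2 < 0 ∧ ¬ v.2 < 0 ∧ ¬ (top n : ℤ) < v.2 ∧ ¬ 2 * v.1 + v.2 < 0) ∧
        ¬ (v.2 < 0 ∧ ¬ u.2 < 0 ∧ ¬ (top n : ℤ) < u.2 ∧ ¬ 2 * u.1 + u.2 < 0) := by
      intro u v w hw hu hv huv
      rw [mem_Usq] at hw hu hv
      refine ⟨hw, hu, hv, ?_, ?_, ?_, ?_, ?_, ?_⟩ <;> intro hc <;> apply huv <;> unfold secsq
      · rw [if_pos hc.1, if_pos hc.2]
      · rw [if_neg hc.1, if_pos hc.2.1, if_neg hc.2.2.1, if_pos hc.2.2.2]
      · rw [if_neg hc.1, if_neg hc.2.1, if_pos hc.2.2.1, if_neg hc.2.2.2.1, if_neg hc.2.2.2.2.1, if_pos hc.2.2.2.2.2]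
      · rw [if_neg hc.1, if_neg hc.2.1, if_neg hc.2.2.1, if_neg hc.2.2.2.1, if_neg hc.2.2.2.2.1, if_neg hc.2.2.2.2.2]
      · rw [if_pos hc.1, if_neg hc.2.1, if_neg hc.2.2.1, if_neg hc.2.2.2]
      · rw [if_pos hc.1, if_neg hc.2.1, if_neg hc.2.2.1, if_neg hc.2.2.2]
    have K := key _ _ _ h1 h2 h3 h4
    clear key h1 h2 h3 h4
    cases b <;> fin_cases d
    · exfalso
      simp only [Fin.zero_eta, e0, e3, f0, f1, f2] at K
      omega
    · refine ⟨2, ?_⟩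
      simp only [Fin.mk_one, e1, e4, f0, f1, f2] at K
      have ha : asq n 2 = ((((2 * (n : ℤ) - top n) / 2, (top n : ℤ)), false), 1) := by simp [asq]
      rw [ha]
      simp only [Fin.mk_one, Prod.mk.injEq, and_true]
      omega
    · refine ⟨0, ?_⟩
      simp only [Fin.reduceFinMk, e2, e5, f0, f1, f2] at K
      have ha : asq n 0 = (((-((top n : ℤ) / 2) - 1, (top n : ℤ)), false), 2) := by simp [asq]
      rw [ha]
      simp only [Fin.reduceFinMk, Prod.mk.injEq, and_true]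
      omega
    · exfalso
      simp only [Fin.zero_eta, e0, e3, t0, t1, t2] at K
      omega
    · refine ⟨1, ?_⟩
      simp only [Fin.mk_one, e1, e4, t0, t1, t2] at K
      have ha : asq n 1 = (((-1, -1), true), 1) := by simp [asq]
      rw [ha]
      simp only [Fin.mk_one, Prod.mk.injEq, and_true]
      omega
    · exfalso
      simp only [Fin.reduceFinMk, e2, e5, t0, t1, t2] at K
      omega
  · rintro ⟨⟨i, j⟩, b⟩ d h1 h2 h3
    obtain ⟨t0, t1, t2, f0, f1, f2⟩ := SQT_S i j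
    cases b <;> fin_cases d
    · simp only [Fin.zero_eta, e0, e3, f0, f1, f2, mem_Usq] at h1 h2 h3 ⊢
      have : tw ((i, j), false) 0 = ((i, j - 1), true) := by simp [tw]
      rw [this, (SQT_S i (j - 1)).2.2.1]
      dsimp only
      omega
    · simp only [Fin.mk_one, e1, e4, f0, f1, f2, mem_Usq] at h1 h2 h3 ⊢
      have : tw ((i, j), false) 1 = ((i, j), true) := by simp [tw]
      rw [this, (SQT_S i j).1]
      dsimp only
      omega
    · simp only [Fin.reduceFinMk, e2, e5, f0, f1, f2, mem_Usq] at h1 h2 h3 ⊢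
      have : tw ((i, j), false) 2 = ((i - 1, j), true) := by simp [tw]
      rw [this, (SQT_S (i - 1) j).2.1]
      dsimp only
      omega
    · simp only [Fin.zero_eta, e0, e3, t0, t1, t2, mem_Usq] at h1 h2 h3 ⊢
      have : tw ((i, j), true) 0 = ((i, j + 1), false) := by simp [tw]
      rw [this, (SQT_S i (j + 1)).2.2.2.2.2]
      dsimp only
      omega
    · simp only [Fin.mk_one, e1, e4, t0, t1, t2, mem_Usq] at h1 h2 h3 ⊢
      have : tw ((i, j), true) 1 = ((i, j), false) := by simp [tw]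
      rw [this, (SQT_S i j).2.2.2.1]
      dsimp only
      omega
    · simp only [Fin.reduceFinMk, e2, e5, t0, t1, t2, mem_Usq] at h1 h2 h3 ⊢
      have : tw ((i, j), true) 2 = ((i + 1, j), false) := by simp [tw]
      rw [this, (SQT_S (i + 1) j).2.2.2.2.1]
      dsimp only
      omega

end Pool.Agent.helper82.SC
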