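import Pool.Agent.helper83.SC.Stmt

/-!
Touching cones of convex bodies: the span of the touching cone of `K` at `u` is the space of the
directions in which the second difference of the support function vanishes.
-/

open scoped Pointwise ContDiff
open MeasureTheory Set Filter Topology

namespace Pool.Agent.helper83.SC

variable {n : ℕ}

theorem TC1_bdd {K : Set (E n)} (hK : IsBody K) (u : E n) :
    BddAbove ((fun x : E n => inner ℝ x u) '' K) :=
  (hK.1.image (by fun_prop)).bddAbove

theorem TC1_le {K : Set (E n)} (hK : IsBody K) {x : E n} (hx : x ∈ K) (u : E n) :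
    inner ℝ x u ≤ hE K u :=
  le_csSup (TC1_bdd hK u) ⟨x, hx, rfl⟩

theorem TC1_exists {K : Set (E n)} (hK : IsBody K) (u : E n) : ∃ x ∈ K, inner ℝ x u = hE K u := by
  obtain ⟨x, hx, h⟩ := hK.1.exists_sSup_image_eq hK.2.2 (f := fun x : E n => inner ℝ x u)
    (by fun_prop)
  exact ⟨x, hx, h.symm⟩

theorem TC1_mem_iff {K : Set (E n)} (hK : IsBody K) {x : E n} (hx : x ∈ K) (v : E n) :
    v ∈ normalCone K x ↔ inner ℝ x v = hE K v := by
  constructor
  · intro h
    refine le_antisymm (TC1_le hK hx v) ?_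
    obtain ⟨y, hy, hyv⟩ := TC1_exists hK v
    rw [← hyv]
    have := h y hy
    rw [inner_sub_right, real_inner_comm y v, real_inner_comm x v] at this
    linarith
  · intro h y hy
    have := TC1_le hK hy v
    rw [← h] at this
    rw [inner_sub_right, real_inner_comm y v, real_inner_comm x v]
    linarith

theorem TC1_add_mem {K : Set (E n)} {x v w : E n} (hv : v ∈ normalCone K x)
    (hw : w ∈ normalCone K x) : v + w ∈ normalCone K x := by
  intro y hy
  rw [inner_add_left]
  have h1 := hv y hy
  have h2 := hw y hy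
  linarith

theorem TC1_smul_mem {K : Set (E n)} {x v : E n} (hv : v ∈ normalCone K x) {c : ℝ} (hc : 0 ≤ c) :
    c • v ∈ normalCone K x := by
  intro y hy
  rw [real_inner_smul_left]
  exact mul_nonpos_of_nonneg_of_nonpos hc (hv y hy)

theorem TC1_convex (K : Set (E n)) (x : E n) : Convex ℝ (normalCone K x) := by
  intro v hv w hw a b ha hb _
  exact TC1_add_mem (TC1_smul_mem hv ha) (TC1_smul_mem hw hb)

theorem TC1_shrink {K : Set (E n)} {x u v : E n} (hu : u ∈ normalCone K x) {ε δ : ℝ} (hδ : 0 < δ)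
    (hδε : δ ≤ ε) (h : u + ε • v ∈ normalCone K x) : u + δ • v ∈ normalCone K x := by
  have hε : 0 < ε := lt_of_lt_of_le hδ hδε
  have h1 : u + δ • v = (δ / ε) • (u + ε • v) + (1 - δ / ε) • u := by
    rw [smul_add, smul_smul, div_mul_cancel₀ _ hε.ne', sub_smul, one_smul]
    abel
  rw [h1]
  refine TC1_add_mem (TC1_smul_mem h (by positivity)) (TC1_smul_mem hu ?_)
  rw [sub_nonneg, div_le_one hε]
  exact hδε

/-- The lineality-type space of the normal cone at `u`. -/
noncomputable def TC1_W (K : Set (E n)) (x u : E n) (hu : u ∈ normalCone K x) : Submodule ℝ (E n) where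
  carrier := {v | ∃ ε : ℝ, 0 < ε ∧ u + ε • v ∈ normalCone K x ∧ u - ε • v ∈ normalCone K x}
  zero_mem' := ⟨1, one_pos, by simpa using hu, by simpa using hu⟩
  add_mem' := by
    rintro v w ⟨ε, hε, h1, h2⟩ ⟨δ, hδ, h3, h4⟩
    have hs : 0 < ε + δ := by positivity
    refine ⟨ε * δ / (ε + δ), by positivity, ?_, ?_⟩
    · have : u + (ε * δ / (ε + δ)) • (v + w) =
          (δ / (ε + δ)) • (u + ε • v) + (ε / (ε + δ)) • (u + δ • w) := by
        match_scalars <;> field_simp
        ring
      rw [this]
      exact TC1_add_mem (TC1_smul_mem h1 (by positivity)) (TC1_smul_mem h3 (by positivity))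
    · have : u - (ε * δ / (ε + δ)) • (v + w) =
          (δ / (ε + δ)) • (u - ε • v) + (ε / (ε + δ)) • (u - δ • w) := by
        match_scalars <;> field_simp
        ring
      rw [this]
      exact TC1_add_mem (TC1_smul_mem h2 (by positivity)) (TC1_smul_mem h4 (by positivity))
  smul_mem' := by
    rintro c v ⟨ε, hε, h1, h2⟩
    rcases lt_trichotomy c 0 with hc | hc | hc
    · refine ⟨ε / (-c), div_pos hε (by linarith), ?_, ?_⟩
      · have : u + (ε / (-c)) • (c • v) = u - ε • v := by
          rw [smul_smul, div_neg, neg_mul, div_mul_cancel₀ _ hc.ne, neg_smul, sub_eq_add_neg]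
        rw [this]; exact h2
      · have : u - (ε / (-c)) • (c • v) = u + ε • v := by
          rw [smul_smul, div_neg, neg_mul, div_mul_cancel₀ _ hc.ne, neg_smul, sub_neg_eq_add]
        rw [this]; exact h1
    · subst hc
      exact ⟨1, one_pos, by simpa using hu, by simpa using hu⟩
    · refine ⟨ε / c, div_pos hε hc, ?_, ?_⟩
      · have : u + (ε / c) • (c • v) = u + ε • v := by
          rw [smul_smul, div_mul_cancel₀ _ hc.ne']
        rw [this]; exact h1
      · have : u - (ε / c) • (c • v) = u - ε • v := by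
          rw [smul_smul, div_mul_cancel₀ _ hc.ne']
        rw [this]; exact h2

theorem TC1_mem_W {K : Set (E n)} {x u : E n} (hu : u ∈ normalCone K x) (v : E n) :
    v ∈ TC1_W K x u hu ↔
      ∃ ε : ℝ, 0 < ε ∧ u + ε • v ∈ normalCone K x ∧ u - ε • v ∈ normalCone K x :=
  Iff.rfl

theorem TC1_self_mem {K : Set (E n)} {x u : E n} (hu : u ∈ normalCone K x) : u ∈ TC1_W K x u hu := by
  refine ⟨1, one_pos, ?_, ?_⟩
  · rw [one_smul]; exact TC1_add_mem hu hu
  · rw [one_smul, sub_self]
    have := TC1_smul_mem hu (le_refl (0 : ℝ))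
    rwa [zero_smul] at this

theorem TC1_W_iff_flat {K : Set (E n)} (hK : IsBody K) {x u : E n} (hx : x ∈ K)
    (hu : u ∈ normalCone K x) (v : E n) : v ∈ TC1_W K x u hu ↔ FlatAt (hE K) u v := by
  have hxu := (TC1_mem_iff hK hx u).1 hu
  constructor
  · rintro ⟨ε, hε, h1, h2⟩
    refine ⟨ε, hε, ?_⟩
    rw [← (TC1_mem_iff hK hx _).1 h1, ← (TC1_mem_iff hK hx _).1 h2, ← hxu, inner_add_right,
      inner_sub_right]
    ring
  · rintro ⟨ε, hε, h⟩
    have h1 := TC1_le hK hx (u + ε • v)
    have h2 := TC1_le hK hx (u - ε • v)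
    have h3 : inner ℝ x (u + ε • v) + inner ℝ x (u - ε • v) = 2 * hE K u := by
      rw [inner_add_right, inner_sub_right, ← hxu]
      ring
    refine ⟨ε, hε, (TC1_mem_iff hK hx _).2 (by linarith), (TC1_mem_iff hK hx _).2 (by linarith)⟩

/-- A touching cone spans the space `W`. -/
theorem TC1_span {K : Set (E n)} {x u : E n} {T : Set (E n)} (hu : u ∈ normalCone K x)
    (hT : IsExtreme ℝ (normalCone K x) T) (huT : u ∈ intrinsicInterior ℝ T) :
    Submodule.span ℝ T = TC1_W K x u hu := by
  have huT' : u ∈ T := intrinsicInterior_subset huT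
  apply le_antisymm
  · rw [Submodule.span_le]
    intro v hv
    obtain ⟨u', hu', huu'⟩ := mem_intrinsicInterior.1 huT
    have : Nonempty (affineSpan ℝ T) := ⟨u'⟩
    let v' : affineSpan ℝ T := ⟨v, subset_affineSpan ℝ T hv⟩
    let L : ℝ → affineSpan ℝ T := fun t => AffineMap.lineMap (k := ℝ) u' v' t
    have hL : Continuous L := AffineMap.lineMap_continuous
    have hL0 : L 0 = u' := AffineMap.lineMap_apply_zero u' v'
    have hnb : ∀ᶠ t in 𝓝 (0 : ℝ), L t ∈ interior ((↑) ⁻¹' T : Set (affineSpan ℝ T)) := by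
      apply hL.continuousAt.eventually
      rw [hL0]
      exact isOpen_interior.mem_nhds hu'
    rw [Metric.eventually_nhds_iff] at hnb
    obtain ⟨r, hr, hball⟩ := hnb
    have h1 := interior_subset (hball (y := -(r / 2)) (by
      rw [Real.dist_eq, sub_zero, abs_neg, abs_of_pos (by positivity)]; linarith))
    have h2 : (L (-(r / 2)) : E n) = u - (r / 2) • (v - u) := by
      simp only [L, AffineMap.lineMap_apply]
      rw [AffineSubspace.coe_vadd, Submodule.coe_smul, AffineSubspace.coe_vsub, huu']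
      simp only [v', vsub_eq_sub, vadd_eq_add, neg_smul]
      abel
    have h3 : u - (r / 2) • (v - u) ∈ normalCone K x := by
      rw [← h2]; exact hT.subset h1
    have hr2 : 0 < 1 + r / 2 := by positivity
    refine ⟨(r / 2) / (1 + r / 2), by positivity, ?_, ?_⟩
    · exact TC1_add_mem hu (TC1_smul_mem (hT.subset hv) (by positivity))
    · have h4 : u - ((r / 2) / (1 + r / 2)) • v =
          (1 + r / 2)⁻¹ • (u - (r / 2) • (v - u)) := by
        match_scalars <;> field_simp
        ring
      rw [h4]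
      exact TC1_smul_mem h3 (by positivity)
  · intro w hw
    obtain ⟨ε, hε, h1, h2⟩ := hw
    have h3 : u ∈ openSegment ℝ (u + ε • w) (u - ε • w) := by
      refine ⟨1 / 2, 1 / 2, by norm_num, by norm_num, by norm_num, ?_⟩
      match_scalars <;> ring
    have h4 := hT.left_mem_of_mem_openSegment h1 h2 huT' h3
    have h5 : w = ε⁻¹ • ((u + ε • w) - u) := by
      rw [add_sub_cancel_left, smul_smul, inv_mul_cancel₀ hε.ne', one_smul]
    rw [h5]
    exact Submodule.smul_mem _ _ (Submodule.sub_mem _ (Submodule.subset_span h4)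
      (Submodule.subset_span huT'))

/-- There is a touching cone. -/
theorem TC1_exists_cone {K : Set (E n)} {x u : E n} (hx : x ∈ K) (hu : u ∈ normalCone K x) :
    ∃ T, IsTouchingCone K u T := by
  set W := TC1_W K x u hu with hW
  have huW : u ∈ W := TC1_self_mem hu
  refine ⟨normalCone K x ∩ W, ⟨x, hx, ⟨inter_subset_left, ?_⟩⟩,
    (TC1_convex K x).inter W.convex, ?_⟩
  · intro a ha b hb z hz hzs
    refine ⟨ha, ?_⟩
    obtain ⟨α, β, hα, hβ, hαβ, rfl⟩ := hzs
    obtain ⟨ε, hε, h1, h2⟩ := hz.2
    refine ⟨ε * α, by positivity, ?_, ?_⟩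
    · exact TC1_add_mem hu (TC1_smul_mem ha (by positivity))
    · have h3 : u - (ε * α) • a = (u - ε • (α • a + β • b)) + (ε * β) • b := by
        match_scalars <;> ring
      rw [h3]
      exact TC1_add_mem h2 (TC1_smul_mem hb (by positivity))
  · -- the relative interior
    let T' : Set W := (↑) ⁻¹' (normalCone K x)
    have hconv : Convex ℝ T' := (TC1_convex K x).linear_preimage W.subtype
    have himg : (W.subtypeₗᵢ.toAffineIsometry) '' T' = normalCone K x ∩ W := by
      ext v
      constructor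
      · rintro ⟨w, hw, rfl⟩
        exact ⟨hw, w.2⟩
      · rintro ⟨h1, h2⟩
        exact ⟨⟨v, h2⟩, h1, rfl⟩
    have key : (⟨u, huW⟩ : W) ∈ interior T' := by
      have h0 : (0 : W) ∈ T' := by
        have := TC1_smul_mem hu (le_refl (0 : ℝ))
        rw [zero_smul] at this
        exact this
      have huT' : (⟨u, huW⟩ : W) ∈ T' := hu
      have hspan : Submodule.span ℝ T' = ⊤ := by
        rw [eq_top_iff]
        rintro ⟨w, hw⟩ _
        obtain ⟨ε, hε, h1, h2⟩ := hw
        have h3 : (⟨u + ε • w, W.add_mem huW (W.smul_mem _ ⟨ε, hε, h1, h2⟩)⟩ : W) ∈ T' := h1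
        have h5 : (⟨w, ⟨ε, hε, h1, h2⟩⟩ : W) =
            ε⁻¹ • ((⟨u + ε • w, W.add_mem huW (W.smul_mem _ ⟨ε, hε, h1, h2⟩)⟩ : W) -
              ⟨u, huW⟩) := by
          apply Subtype.ext
          simp only [Submodule.coe_smul, Submodule.coe_sub]
          rw [add_sub_cancel_left, smul_smul, inv_mul_cancel₀ hε.ne', one_smul]
        rw [h5]
        exact Submodule.smul_mem _ _ (Submodule.sub_mem _ (Submodule.subset_span h3)
          (Submodule.subset_span huT'))
      have haff : affineSpan ℝ T' = ⊤ := by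
        apply SetLike.coe_injective
        have h6 := affineSpan_insert_zero (k := ℝ) T'
        rw [insert_eq_of_mem h0, hspan] at h6
        rw [h6]
        rfl
      obtain ⟨z, hz⟩ := hconv.interior_nonempty_iff_affineSpan_eq_top.2 haff
      obtain ⟨ε, hε, h1, h2⟩ := z.2
      obtain ⟨δ, hδ, hδ1, h2'⟩ : ∃ δ : ℝ, 0 < δ ∧ δ < 1 ∧
          u - δ • (z : E n) ∈ normalCone K x := by
        have hε' : 0 < min ε (1 / 2) := by positivity
        refine ⟨min ε (1 / 2), hε', lt_of_le_of_lt (min_le_right _ _) (by norm_num), ?_⟩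
        have h3 : u + ε • (-(z : E n)) ∈ normalCone K x := by
          rwa [smul_neg, ← sub_eq_add_neg]
        have h4 := TC1_shrink hu hε' (min_le_left ε (1 / 2)) h3
        rwa [smul_neg, ← sub_eq_add_neg] at h4
      have hδ' : 0 < 1 - δ := by linarith
      set y : W := (1 - δ)⁻¹ • ((⟨u, huW⟩ : W) - δ • z) with hy
      have hyT : y ∈ T' := TC1_smul_mem h2' (by positivity)
      have h6 : (⟨u, huW⟩ : W) ∈ openSegment ℝ z y := by
        refine ⟨δ, 1 - δ, hδ, hδ', by ring, ?_⟩
        rw [hy, smul_smul, mul_inv_cancel₀ hδ'.ne', one_smul]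
        abel
      exact hconv.openSegment_interior_self_subset_interior hz hyT h6
    have := interior_subset_intrinsicInterior (𝕜 := ℝ) key
    rw [← himg, AffineIsometry.intrinsicInterior_image]
    exact ⟨_, this, rfl⟩

theorem touching_span_of : touching_span_stmt := by
  intro n K hK u hu
  obtain ⟨x, hx, hxu⟩ := TC1_exists hK u
  have huN : u ∈ normalCone K x := (TC1_mem_iff hK hx u).2 hxu
  refine ⟨TC1_W K x u huN, TC1_self_mem huN, fun v => TC1_W_iff_flat hK hx huN v, ?_⟩
  -- all touching cones span this space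
  have hall : ∀ T, IsTouchingCone K u T → Submodule.span ℝ T = TC1_W K x u huN := by
    rintro T ⟨⟨x', hx', hT⟩, _, huT⟩
    have huN' : u ∈ normalCone K x' := hT.subset (intrinsicInterior_subset huT)
    rw [TC1_span huN' hT huT]
    ext v
    rw [TC1_W_iff_flat hK hx' huN', TC1_W_iff_flat hK hx huN]
  have hdim : ∀ T, IsTouchingCone K u T →
      Module.finrank ℝ (TC1_W K x u huN) + Module.finrank ℝ (Submodule.span ℝ T)ᗮ = n := by
    intro T hT
    rw [hall T hT]
    have := Submodule.finrank_add_finrank_orthogonal (TC1_W K x u huN)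
    rw [this, finrank_euclideanSpace_fin]
  intro k
  constructor
  · rintro ⟨T, hT, hk⟩
    have := hdim T hT
    omega
  · intro hk
    obtain ⟨T, hT⟩ := TC1_exists_cone hx huN
    refine ⟨T, hT, ?_⟩
    have := hdim T hT
    omega

end Pool.Agent.helper83.SC
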