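import Pool.Agent.helper83.SC.Stmt

/-!
Extreme directions in terms of the flat directions of the support functions.
-/

open scoped Pointwise ContDiff
open MeasureTheory Set Filter Topology

namespace Pool.Agent.helper83.SC

theorem mem_extreme_iff_of (h1 : touching_span_stmt) (h2 : flat_sum_stmt) (h3 : isBody_sum_stmt)
    (h4 : hE_facts_stmt) : mem_extreme_iff_stmt := by
  intro m C hC u hu
  have hu0 : u ≠ 0 := by
    rintro rfl
    simp at hu
  have hCV : ∀ i, CV (hE (C i)) := fun i => (h4 (hC i) (hC i)).2.1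
  have key : ∀ I : Finset (Fin m), ∃ W : Submodule ℝ (E (m + 1)),
      (∀ v, v ∈ W ↔ ∀ i ∈ I, FlatAt (hE (C i)) u v) ∧
      ∀ k, DimPerpGE (∑ i ∈ I, C i) u k ↔ k + Module.finrank ℝ W ≤ m + 1 := by
    intro I
    obtain ⟨hB, hs⟩ := h3 I hC
    obtain ⟨W, _, hW, hk⟩ := h1 hB hu0
    refine ⟨W, fun v => ?_, hk⟩
    rw [hW v, ← h2 I hCV u v]
    have : hE (∑ i ∈ I, C i) = fun x => ∑ i ∈ I, hE (C i) x := funext hs
    rw [this]
  constructor
  · rintro ⟨_, h⟩ I W hW
    obtain ⟨W0, hW0, hk⟩ := key I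
    have h5 := (hk _).1 (h I)
    have hle : W ≤ W0 := fun v hv => (hW0 v).2 (hW v hv)
    have := Submodule.finrank_mono hle
    omega
  · intro h
    refine ⟨hu, fun I => ?_⟩
    obtain ⟨W0, hW0, hk⟩ := key I
    exact (hk _).2 (h I W0 (fun v hv => (hW0 v).1 hv))

end Pool.Agent.helper83.SC
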